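import Pool.Agent.H41.Lib.H326R2.Pi.Stmts
/-! T3: S_odd -> S_low -> S_high -> S_term -/

open Polynomial

namespace Pool.Agent.H837R2.PI

open Pool.Agent.H326R2.Pi

theorem LL_add {R : Type*} [CommRing R] (m : ℕ) (P Q : R[X]) : LL m (P + Q) = LL m P + LL m Q := by
  unfold LL
  rw [derivative_add]
  ring

theorem LL_C_mul {R : Type*} [CommRing R] (m : ℕ) (c : R) (P : R[X]) :
    LL m (C c * P) = C c * LL m P := by
  unfold LL
  rw [derivative_C_mul]
  ring

theorem solv_add {m N L : ℕ} {P Q : ℤ[X]} (hP : Solv m N L P) (hQ : Solv m N L Q) :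
    Solv m N L (P + Q) := by
  obtain ⟨k, Φ, h1, h2⟩ := hP
  obtain ⟨k', Φ', h1', h2'⟩ := hQ
  refine ⟨k + k', Φ + Φ', (natDegree_add_le _ _).trans (max_le h1 h1'), ?_⟩
  rw [LL_add, h2, h2', C_add]
  ring

theorem solv_C_mul {m N L : ℕ} {P : ℤ[X]} (c : ℤ) (hP : Solv m N L P) :
    Solv m N L (C c * P) := by
  obtain ⟨k, Φ, h1, h2⟩ := hP
  refine ⟨c * k, C c * Φ, (natDegree_C_mul_le _ _).trans h1, ?_⟩
  rw [LL_C_mul, h2, C_mul]
  ring

theorem monic_s2 : (X ^ 2 - 8 : ℤ[X]).Monic := by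
  have : (X ^ 2 - 8 : ℤ[X]) = X ^ 2 - C 8 := by simp
  rw [this]
  exact monic_X_pow_sub_C 8 two_ne_zero

theorem deg_s2 : (X ^ 2 - 8 : ℤ[X]).natDegree = 2 := by
  have : (X ^ 2 - 8 : ℤ[X]) = X ^ 2 - C 8 := by simp
  rw [this]
  exact natDegree_X_pow_sub_C

theorem term (ho : S_odd) (hl : S_low) (hh : S_high) : S_term := by
  intro m N L hm hN hL
  have hbasis : ∀ d : ℕ, d ≤ 2 * m + N → ∃ B : ℤ[X], B.Monic ∧ B.natDegree = d ∧
      Solv m N L B := by
    intro d hd
    rcases Nat.even_or_odd' d with ⟨k, hk | hk⟩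
    · by_cases hkm : k < m
      · refine ⟨(X ^ 2 - 8) ^ k, monic_s2.pow k, ?_, hl m N L hm hN hL k hkm⟩
        rw [monic_s2.natDegree_pow, deg_s2]
        omega
      · obtain ⟨B, h1, h2, h3⟩ := hh m N L hm hN hL (k - m) (by omega)
        exact ⟨B, h1, by omega, h3⟩
    · refine ⟨X * (X ^ 2 - 8) ^ k, monic_X.mul (monic_s2.pow k), ?_,
        ho m N L hm hN hL k (by omega)⟩
      rw [monic_X.natDegree_mul (monic_s2.pow k), monic_s2.natDegree_pow, deg_s2, natDegree_X]
      omega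
  have key : ∀ d : ℕ, d ≤ 2 * m + N → ∀ Q : ℤ[X], Q.natDegree ≤ d → Solv m N L Q := by
    intro d
    induction d with
    | zero =>
      intro hd Q hQ
      obtain ⟨B, h1, h2, h3⟩ := hbasis 0 hd
      have hB : B = 1 := h1.natDegree_eq_zero.1 h2
      have hQ' : Q = C (Q.coeff 0) * B := by
        rw [hB, mul_one]
        exact eq_C_of_natDegree_le_zero hQ
      rw [hQ']
      exact solv_C_mul _ h3
    | succ d ih =>
      intro hd Q hQ
      obtain ⟨B, h1, h2, h3⟩ := hbasis (d + 1) hd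
      have hQ' : Q = (Q + C (-(Q.coeff (d + 1))) * B) + C (Q.coeff (d + 1)) * B := by
        rw [C_neg]; ring
      rw [hQ']
      refine solv_add (ih (by omega) _ ?_) (solv_C_mul _ h3)
      rw [natDegree_le_iff_coeff_eq_zero]
      intro j hj
      rw [coeff_add, coeff_C_mul]
      by_cases hjd : j = d + 1
      · have h4 : B.coeff (d + 1) = 1 := by
          rw [← h2]; exact h1.coeff_natDegree
        rw [hjd, h4]
        ring
      · rw [coeff_eq_zero_of_natDegree_lt (p := Q) (by omega),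
          coeff_eq_zero_of_natDegree_lt (p := B) (by omega)]
        ring
  intro Q hQ
  exact key _ le_rfl Q hQ

end Pool.Agent.H837R2.PI
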